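import Pool.Agent.Helper48.MG.Fin

/-!
# ZF + AD proves that `ℵ_ω` is a Magidor cardinal

In every model `(M, E)` of ZF + AD the cardinal `ℵ_ω` exists and is a Magidor cardinal.
-/

set_option autoImplicit false

namespace Pool.Agent.Results.MP_29bd6b_lc.AlephOmegaMagidor

open Pool.Agent.Helper48.MG

theorem result : ∀ (M : Type) (E : M → M → Prop), ZF E → ADet E →
    (∃ l, IsAlephOmega E l) ∧ ∀ l, IsAlephOmega E l → Magidor E l :=
  alephOmega_magidor

end Pool.Agent.Results.MP_29bd6b_lc.AlephOmegaMagidor
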